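import Pool.Agent.Helper69.MC.StB

/-! Project MC, module LCC: local components. -/

set_option autoImplicit false

namespace Pool.Agent.Helper99.MC

open Set Topology Filter MeasureTheory
open Pool.Agent.Helper31.CY Pool.Agent.Helper69.MF Pool.Agent.Helper69.MC

theorem hLCC : StLC1 → StLC2 → StLCC := by
  intro h1 h2 S m v p hm hA hM
  obtain ⟨Φ, U, hU, hp, hc, h0, hi, hS⟩ := hM
  obtain ⟨ρ0, hρ, hb, hL⟩ := h1 S m v p Φ U hm hA hU hp hc h0 hi hS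
  refine ⟨ρ0, fun i => {x | x ∈ Metric.ball p ρ0 ∧ Φ x ∈ Sg v i}, hL, ?_⟩
  intro i j hij ρ hρ'
  obtain ⟨q, hq, hd, hN, hr⟩ := h2 S m v p Φ U ρ0 hA hU hp hc h0 hi hS hρ hb i j hij ρ hρ'
  refine ⟨q, hq, hd, hN, ?_⟩
  intro r hr'
  obtain ⟨⟨x, hx, hx1, hx2⟩, ⟨y, hy, hy1, hy2⟩⟩ := hr r hr'
  exact ⟨⟨x, hx, hx1, hx2⟩, ⟨y, hy, hy1, hy2⟩⟩

end Pool.Agent.Helper99.MC
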